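import Pool.Agent.helper76.FF2.Spec

/-!
# FF2, row BAS: the base point
-/

set_option autoImplicit false

namespace Pool.Agent.FF2

open Polynomial

theorem BAS (F : Type*) [Field F] [Fintype F] [CharP F 2] (h1 : AVO_stmt F) : BAS_stmt F := by
  classical
  intro G M x Ep hM hEp
  obtain ⟨L0, hL0⟩ := helper36.FF.finite_factors Ep hEp
  set L : Finset F[X] := L0.filter (fun π => G.card < π.natDegree ∧ ¬ π ∣ M) with hL
  have hLmem : ∀ π : F[X], π ∈ L ↔ (π.Monic ∧ Irreducible π ∧ π ∣ Ep) ∧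
      (G.card < π.natDegree ∧ ¬ π ∣ M) := by
    intro π
    rw [hL, Finset.mem_filter, hL0]
  have hyex : ∀ π : F[X], ∃ y : F[X], π ∈ L → ∀ g ∈ G, ¬ π ∣ x + g + y ^ 4 := by
    intro π
    by_cases h : π ∈ L
    · rw [hLmem] at h
      obtain ⟨⟨_, h2, _⟩, h4, _⟩ := h
      obtain ⟨y, hy⟩ := h1 π h2 G x (h4.trans (Nat.lt_pow_self Fintype.one_lt_card))
      exact ⟨y, fun _ => hy⟩
    · exact ⟨0, fun h' => absurd h' h⟩
  choose yy hyy using hyex
  obtain ⟨wb1, hwb1⟩ := helper36.FF.crt_finset L (fun π => π) yy (by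
    intro π h π' h' hne
    rw [hLmem] at h h'
    exact helper36.FF.coprime_of_ne h.1.1 h'.1.1 h.1.2.1 h'.1.2.1 hne)
  obtain ⟨wb2, hwb2a, hwb2b⟩ := helper36.FF.crt_pair (A := M) (B := ∏ π ∈ L, π) (by
    apply IsCoprime.prod_right
    intro π h
    rw [hLmem] at h
    obtain ⟨⟨_, h2, _⟩, _, h5⟩ := h
    exact (h2.coprime_iff_not_dvd.mpr h5).symm) 0 wb1
  have hLprod0 : ∏ π ∈ L, π ≠ 0 := by
    apply Finset.prod_ne_zero_iff.mpr
    intro π h
    rw [hLmem] at h
    exact h.1.1.ne_zero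
  obtain ⟨wb, hwba, hwbd⟩ := helper36.FF.exists_avoid (M * ∏ π ∈ L, π) wb2
    (mul_ne_zero hM hLprod0) (x.natDegree + ∑ g ∈ G, g.natDegree)
  refine ⟨wb, ?_, ?_, ?_⟩
  · have h2 : M ∣ wb - wb2 := (dvd_mul_right _ _).trans hwba
    have : wb = (wb - wb2) + (wb2 - 0) := by ring
    rw [this]
    exact dvd_add h2 hwb2a
  · intro g hg h0
    have h2 : wb ^ 4 = -(x + g) := by linear_combination h0
    have h3 := congrArg natDegree h2
    rw [natDegree_pow, natDegree_neg] at h3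
    have h4 := natDegree_add_le x g
    have h5 : g.natDegree ≤ ∑ g ∈ G, g.natDegree :=
      Finset.single_le_sum (f := fun g : F[X] => g.natDegree) (fun i _ => Nat.zero_le _) hg
    have h6 : max x.natDegree g.natDegree ≤ x.natDegree + ∑ g ∈ G, g.natDegree :=
      max_le (by omega) (by omega)
    omega
  · intro π hi hd hM' hE' g hg hdvd
    obtain ⟨π', m', i', hass, hdeg'⟩ := helper36.FF.exists_monic_assoc hi
    have hmem : π' ∈ L := by
      rw [hLmem]
      refine ⟨⟨m', i', hass.dvd_iff_dvd_left.mp hE'⟩, by rw [hdeg']; exact hd, ?_⟩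
      rwa [← hass.dvd_iff_dvd_left]
    apply hyy π' hmem g hg
    have h2 : π' ∣ x + g + wb ^ 4 := hass.dvd_iff_dvd_left.mp hdvd
    have h3 : π' ∣ wb - yy π' := by
      have h0 : π' ∣ ∏ π ∈ L, π := Finset.dvd_prod_of_mem (fun π => π) hmem
      have h4 : π' ∣ wb - wb2 := (h0.trans (dvd_mul_left _ _)).trans hwba
      have h5 : π' ∣ wb2 - wb1 := h0.trans hwb2b
      have : wb - yy π' = (wb - wb2) + (wb2 - wb1) + (wb1 - yy π') := by ring
      rw [this]
      exact dvd_add (dvd_add h4 h5) (hwb1 π' hmem)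
    have h4 : π' ∣ wb ^ 4 - yy π' ^ 4 := h3.trans (sub_dvd_pow_sub_pow _ _ 4)
    have : x + g + yy π' ^ 4 = (x + g + wb ^ 4) - (wb ^ 4 - yy π' ^ 4) := by ring
    rw [this]
    exact dvd_sub h2 h4

end Pool.Agent.FF2
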